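import Pool.Agent.L7h69.Scr.Main

/-!
# Bloch's problem for abelian covers of the plane and of the Hirzebruch surfaces

Let `F_e` be the Hirzebruch surface, `e ≥ 1`, with the negative section `C₀` and the fibre `F`, and let
`C_∞ = C₀ + e F`. A normal abelian cover `X` of `F_e` with the group `G` is given by its branch curves, which
are curves `D i` in the classes `d i C₀ + b i F` which do not contain `C₀` (so `b i ≥ e (d i)`), and perhaps
the curve `C₀`, and by the generators `g i` and `g₀` of the inertia groups, such that
`∑ i, d i • g i + g₀ = 0` and `∑ i, b i • g i = 0`. A character `χ` of `G` of order dividing `n` gives the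
residues `a i = χ (g i)` and `a₀ = χ (g₀)` modulo `n`, and the cyclic quotient `Y = X / ker χ` is the surface
`z ^ n = ∏ i, f i ^ a i`, where `f i` is the equation of `D i` in the coordinates of `F_e` (the equation of
`C₀` is `1` since this curve is at infinity). By Pardini `H⁰ (X, ω_X)` is the sum over the characters `χ` of the
`H⁰ (F_e, K + α C₀ + β F)`, where `α = ∑ i, d i (a i / n) + a₀ / n` and `β = ∑ i, b i (a i / n)`, with
representatives in `{0, ..., n - 1}`. This group is zero if and only if `α ≤ 1` or `β ≤ e + 1`. So if
`H² (X, O_X) = 0` (for smooth `X` this means `p_g = 0`) then this condition holds for `χ` and for `-χ`.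

Theorem: if it holds for `χ` and for `-χ` then `Y` is dominated by a product of two curves, unless `e = 2`
and the branch divisor of `Y` over `F_2` is in the class of `C₀ + 3 C_∞`. There is no condition on
the number, the components and the singularities of the curves.

This includes the abelian covers of the plane: these are the covers of `F_1` whose branch divisor does not meet
`C₀`, with `d i = b i` and `a₀ = 0`. Here the condition is that the degree `β` is at most `2`. The case
`e = 0` is the starting result `AbelianQuadricCovers`, where the condition is needed for all multiples of `χ`.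

Proof. Let `A = ∑ d i + 1` or `∑ d i` and `B = ∑ b i`, the sums over the `i` with `a i ≠ 0`, where `1` is added if
`a₀ ≠ 0`. If `A ≤ 3` then the fibres of `Y` over the base of `F_e` are cyclic covers of `P¹` with at most three
branch points, which can be moved to standard position after an extension of the base. Let `A ≥ 4`.
Since `α (χ) + α (-χ) = A`, we have, say, `α (-χ) ≥ 2`; and if `α (χ) ≤ 1` then `α (-χ) ≥ 3` and
`β (-χ) > e (α (-χ) - 1) ≥ 2 e ≥ e + 1`, a contradiction. So `β (χ)` and `β (-χ)` are at most `e + 1`, and
`3 e ≤ e ∑ d i ≤ B = β (χ) + β (-χ) ≤ 2 e + 2`, so `e ≤ 2`. If `e = 2` then we are in the exceptional case. If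
`e = 1` then `Y` is a cover of the plane such that the degrees of `χ` and `-χ` are at most `2`, so that the
branch curve has degree at most `4`. Then one uses the pencil of lines through a common point of
two branch curves, or through a double point; the double cover with a smooth quartic curve is rational.
-/

namespace Pool.Agent.Results.MP_7ebcb6_ag.AbelianScrollCovers

open Pool.Agent.N197.Pln Pool.Agent.L7h69.Scr

/-- a cyclic cover of the Hirzebruch surface `F_e`, `e ≥ 1`, such that the parts of `H² (Y, O_Y)` which belong to
the generators `χ` and `-χ` of the character group are zero, is dominated by a product of curves (except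
perhaps if `e = 2` and the branch divisor is in the class of `C₀ + 3 C_∞`) -/
theorem result {ι : Type} [Fintype ι] {e : ℕ} (he : 1 ≤ e) {f : ι → MvPolynomial (Fin 2) ℂ}
    {d b : ι → ℕ} (hf : ∀ i, IsScrollCurve e (f i) (d i) (b i)) {n : ℕ} [NeZero n] {a : ι → ZMod n}
    {a₀ : ZMod n} (hd : ∑ i, d i • a i + a₀ = 0) (hb : ∑ i, b i • a i = 0)
    (hpg : lineDegree n d a + (a₀.val : ℚ) / n ≤ 1 ∨ lineDegree n b a ≤ e + 1)
    (hpg' : lineDegree n d (fun i => -(a i)) + ((-a₀).val : ℚ) / n ≤ 1 ∨
      lineDegree n b (fun i => -(a i)) ≤ e + 1)
    (hexc : ¬ (e = 2 ∧ a₀ ≠ 0 ∧ ∑ i ∈ Finset.univ.filter (fun i => a i ≠ 0), d i = 3 ∧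
      ∑ i ∈ Finset.univ.filter (fun i => a i ≠ 0), b i = 6)) :
    AffineDominatedByCurves n f a :=
  main he hf hd hb hpg hpg' hexc

end Pool.Agent.Results.MP_7ebcb6_ag.AbelianScrollCovers
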