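import Pool.Agent.L7lead.TC.Fin

/-!
# Bloch's problem for abelian covers of toric surfaces

Let `S` be a smooth projective toric surface and `X` a normal abelian cover of `S` with the group `G`, branched
along curves `D i` with the generators `g i` of the inertia groups. The `D i` are arbitrary irreducible curves
with `D i ^ 2 ≥ 0`, that is: no `D i` is a torus-invariant curve with negative self-intersection. So they are nef, the
class of `D i` is given by a lattice polygon `P i`, and `D i` is the zero divisor of a section `f i`, a Laurent
polynomial with exponents in `P i` (a polynomial, if `P i` is moved to the quadrant).

Let `χ` be a character of `G` of order dividing `n`, with the residues `a i = χ (g i)` modulo `n`. The cyclic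
quotient `X / ker χ` is the surface `z ^ n = ∏ i, f i ^ a i` (a monomial factor is included among the `f i`: then
`P i` is a point). It is unramified along the other curves of the boundary of `S`: this is the first
hypothesis, `∑ i, a i * min_{P i} u = 0` modulo `n` for all integral linear functions `u` (it suffices to have this
for the rays of the fan). By Pardini `H⁰ (X, ω_X)` is the sum over the characters of `H⁰ (S, K + L_χ)`, where `L_χ` is
the class of `∑ i, (a i / n) D i`, with representatives of the `a i` in `{0, ..., n - 1}`; a basis of
`H⁰ (S, K + L_χ)` is given by the lattice points in the interior of the polygon `Q_χ = ∑ i, (a i / n) P i`. So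
`H² (X, O_X) = 0` means that there are none, for all characters. This is the second hypothesis for the powers of
`χ`: each lattice point `m` is separated from the interior by a linear function `u ≠ 0`.

Theorem: then `X / ker χ` is dominated by a product of two curves.

Proof. `Q_χ` is a lattice polygon since its support function is integral at integral points. A lattice polygon
without interior lattice points has lattice width at most one or is the double `2 Δ` of the standard triangle, up to
a unimodular transformation. So `Q_χ` is the polygon of a nef divisor on a scroll `F_e`, `e ≥ 0`, or on the plane, and
its support function is linear on the cones of the fan of `F_e` or of the plane. It is a positive combination of the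
support functions of the `P i` with `a i ≠ 0`, which are superadditive; hence these are linear on the same
cones, so that these `P i` are the polygons of nef divisors on the same `F_e`, or on the plane. After the
corresponding monomial change of coordinates `X / ker χ` is birational to a cover of `F_e` or of the plane,
branched along the curves `f i = 0`, and the lattice points in the interiors of the `Q_{k χ}` are again those which
count the differentials. Now the results for `F_e`, `e ≥ 1`, and for the plane (`AbelianScrollCovers`, without
the negative section) and for `F_0` (`AbelianQuadricCovers`) apply.

The polygons: `Pool/Agent/L7lead/TC`. Parts of the proof are by helper47 and helper73.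
-/

namespace Pool.Agent.Results.MP_7ebcb6_ag.AbelianToricCovers

open Pool.Agent.N197.Pln Pool.Agent.L7lead.TC

/-- the cyclic cover `z ^ n = ∏ i, f i ^ a i` of a toric surface, branched along the zero divisors of
sections `f i` of nef divisors with the polygons `P i`, is dominated by a product of two curves if the parts of
`H² (Y, O_Y)` of all characters are zero -/
theorem result {ι : Type} [Fintype ι] {f : ι → MvPolynomial (Fin 2) ℂ} {P : ι → LatticePolygon}
    (hf : ∀ i, IsSection (P i) (f i)) {n : ℕ} [NeZero n] {a : ι → ZMod n}
    (hunr : ∀ u : ℤ × ℤ, ∑ i, ((P i).low u : ZMod n) * a i = 0)
    (hpg : ∀ (k : ℤ) (m : ℤ × ℤ), ∃ u : ℤ × ℤ, u ≠ 0 ∧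
      (pair u m : ℚ) ≤ ∑ i, (((k • a i).val : ℚ) / n) * ((P i).low u : ℚ)) :
    AffineDominatedByCurves n f a :=
  final ι n f a P hf hunr hpg

end Pool.Agent.Results.MP_7ebcb6_ag.AbelianToricCovers
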