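import Pool.Agent.L7h90.Jac

/-!
# Bloch's problem for a surface depends only on the Jacobian of the generic member of a pencil

A surface `X` is given by its function field `K`, a finitely generated field of transcendence
degree `2` over `ℂ`. The property `Trivial K` means that a positive multiple `N` of the generic point
of `X` over an algebraic closure of `ℂ(X)` is rationally equivalent to a cycle which is supported on
a curve `D ⊂ X`; by Bloch and Srinivas this means that `d(X) = 0`.

Let `x : X ⇢ P¹` be a pencil of curves (`IsPencil`), let `C` be its generic member, a curve over `ℂ(x)`,
and let `Y_j` be surfaces with maps `x_j` to `P¹` with the generic members `C_j`. A prime correspondence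
between `C` and `C_j` over `ℂ(x)` is given by a surface which dominates `X` and `Y_j` such that `x = x_j` on
it. `Transfer x y T` (`Pool/Agent/L7h90/TDefs.lean`) means that `T` is the action of a composition
`A ∘ B` of two prime correspondences, `B` from `C` to some `C_j` and `A` from `C_j` to `C`, on the
differentials `g dy` of `C`, where the surface `Y_j` is rational or satisfies `Trivial`.

Theorem: if an integral combination of such compositions `A_j ∘ B_j` acts on the regular
differentials of `C` as the multiplication by an integer `N ≠ 0`, then `d(X) = 0`.

The assumption means that the Jacobian of `C` is isogenous to a quotient of a product of Jacobians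
of curves `C_j` over `ℂ(x)` whose surfaces `Y_j` are rational or satisfy `d(Y_j) = 0`. (If the Jacobian of
`C` is such a quotient, then by Poincaré's theorem there are homomorphisms between the Jacobians of `C`
and the `C_j` in both directions such that the sum of the compositions is the multiplication by a
positive integer; up to a factor, homomorphisms are given by correspondences, and these are
integral combinations of prime correspondences and of correspondences which act as zero.) For curves
of genus one this is the first step of the proof of Bloch, Kas and Lieberman for elliptic surfaces,
where the only correspondences are those between `X` and its Jacobian surface; here the genus, the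
correspondences and the surfaces `Y_j` are arbitrary.

Proof. Let `σ` be a generic point of `X`. The cycle `∑ m_j A_j (B_j σ) - N σ` lies on one member of the
pencil, and its trace on the regular differentials of this member is zero. So it is rationally
equivalent to zero, modulo cycles which are supported on curves of `X`. The points of `B_j σ` are
generic points of `Y_j`, so a positive multiple of `B_j σ` is rationally equivalent to zero modulo
curves (for rational surfaces this is shown with the curves from the proof for rational elliptic
surfaces), and so is a positive multiple of `A_j (B_j σ)`.
-/

namespace Pool.Agent.Results.MP_7ebcb6_ag.JacobianTransfer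

open Pool.Agent.L7h90.BP Pool.Agent.N162.BC

/-- **Transfer through Jacobians.** Let `x` be a pencil on the surface with the function field `K`, let `y` be
another coordinate, and let `T j` be actions of compositions `A_j ∘ B_j` of correspondences on the
differentials `g dy` of the generic member of the pencil. Suppose that `∑ m_j T j` is the
multiplication by `N ≠ 0` on the regular differentials: these are `ω(E) dy`, where `ω` is a form which is
regular on the generic member and `E = (∂/∂x, ∂/∂y)`. Then `X` satisfies Bloch's conjecture. -/
theorem result {K : Type} [Field K] [Algebra ℂ K] [Algebra.EssFiniteType ℂ K]
    (hK : Algebra.trdeg ℂ K = 2) {x y : K} (hx : IsPencil x)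
    (hxy : AlgebraicIndependent ℂ ![x, y]) {n : ℕ} {T : Fin n → K → K}
    (hT : ∀ j, Transfer x y (T j)) {m : Fin n → ℤ} {N : ℤ} (hN : N ≠ 0)
    (h : ∀ (ω : (Fin 2 → Derivation ℂ K K) → K) (E : Fin 2 → Derivation ℂ K K),
      FibreForm (IntermediateField.adjoin ℂ {x}) 2 ω →
        E 0 x = 1 → E 0 y = 0 → E 1 x = 0 → E 1 y = 1 →
          ∑ j, (m j : K) * T j (ω E) = N * ω E) : Trivial K :=
  jac_rat hK hx hxy hT hN h

end Pool.Agent.Results.MP_7ebcb6_ag.JacobianTransfer
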