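import Pool.Agent.L7h90.Rel

/-!
# Bloch's problem for surfaces with pencils of curves with completely split Jacobians

A surface `X` is given by its function field, a finitely generated field of transcendence
degree `2` over `ℂ`. If a finite group `G` acts on the function field `K` of the surface `X` then the
function field of `X / H`, for a subgroup `H`, is the fixed field of `H`.

* `GenusZero`: `p_g = 0`, there is no nonzero rational canonical form which is regular at all
  prime divisors.
* `SplitPencil`: there is a pencil `x : X ⇢ P¹` (`IsPencil`) such that the Jacobian of its
  generic member is isogenous over `ℂ(x)` to a product of elliptic curves (`MapsToEll`). The number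
  of the elliptic curves is the genus of the members of the pencil, and there is no condition on it,
  on the elliptic curves and on the maps. (For genus `0` there are no elliptic curves.)
* `DetectsFixed G H₀ H`: the subgroups `H₀` and `H i` of the finite group `G` are such that every
  rational representation of `G` with a nonzero vector which is fixed by `H₀` has a nonzero vector
  which is fixed by one of the `H i`.
* `Trivial`: a positive multiple `N` of the generic point of `X` over an algebraic closure of
  `ℂ(X)` is rationally equivalent to a cycle which is supported on a curve `D ⊂ X` (the group `Rat` is
  the group of the zero-cycles which are rationally equivalent to zero modulo the cycles which are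
  supported on curves of `X`). By Bloch and Srinivas this means that `d(X) = 0`.

Theorem: let `G` be a finite group of birational automorphisms of a surface `X`, with subgroups `H₀`
and `H i` as above. If each of the surfaces `X / H i` satisfies Bloch's conjecture or has `p_g = 0` and a
pencil of curves over the line such that the Jacobian of the generic member is isogenous to a product
of elliptic curves, then `X / H₀` satisfies Bloch's conjecture.

In particular (`G = 1`) every surface with `p_g = 0` and with such a pencil satisfies Bloch's conjecture.
With `H₀ = 1` this is a criterion for `X` itself; in general `X` may have any geometric genus, for example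
it may be the Galois closure of a rational map of `X / H₀` to another surface.

Proof. 1. Let `η² = ξ³ + a(x) ξ + b(x)` be an elliptic surface which is dominated by a surface with
`p_g = 0`, with the minimal equation. The form `dx ∧ dξ / η` is regular at all places if `deg a > 4` or
`deg b > 6`. So `deg a ≤ 4` and `deg b ≤ 6`.

2. Let `σ = (x₀, ξ₀, η₀)` be a generic point of such a surface over an algebraically closed field `Ω`. There
are polynomials `s` and `r` over `Ω` of degrees at most `2` and `3` with `s(x₀) = ξ₀`, `r(x₀) = η₀` and
`s³ + a s + b - r² = c (x - x₀)⁶` for a constant `c`. On the curve `ξ = s(x)` of the surface the function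
`(η - r(x)) / (η + r(x))` shows that `6 σ ~ 6 σ'` for `σ' = (x₀, ξ₀, -η₀)`, and `x - x₀` shows that
`σ + σ' ~ 0`, modulo curves. So `12 σ ~ 0`.

3. Let a surface have the pencil `x` with the elliptic curves `E_j` and the maps `π_j` of degree `d_j`.
Let `P = ∏ d_j` and let `σ` be a generic point. The cycle `P σ - ∑ (P / d_j) π_j^* π_{j *} σ` lies on one
member of the pencil, and its trace on the regular differentials of this member is zero since these are
spanned by the pullbacks of the regular differentials of the `E_j`, and the pullbacks of the `E_j` are
orthogonal. So it is rationally equivalent to zero modulo curves. By step 2 a positive multiple of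
each of the cycles `π_j^* π_{j *} σ` is rationally equivalent to zero modulo curves.

4. The functions `θ` on `G` such that a multiple of `∑ θ(g) g σ` is rationally equivalent to zero modulo
curves, for all generic points `σ` of `X`, are a subrepresentation of `ℚ[G]`. The quotient
representation has no nonzero vector which is fixed by one of the `H i`, so the class of the
characteristic function of `H₀`, which is fixed by `H₀`, is zero in it.
-/

namespace Pool.Agent.Results.MP_7ebcb6_ag.SplitJacobianPencils

open Pool.Agent.L7h90.BP IntermediateField

/-- **Bloch's conjecture for `X / H₀`**, if the quotients `X / H i` satisfy it or have `p_g = 0` and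
pencils with completely split Jacobians -/
theorem result {K : Type} [Field K] [Algebra ℂ K] [Algebra.EssFiniteType ℂ K]
    (hK : Algebra.trdeg ℂ K = 2) {G : Type} [Group G] [Finite G]
    (act : G →* (K ≃ₐ[ℂ] K)) (hact : Function.Injective act) (H₀ : Subgroup G) {ι : Type}
    (H : ι → Subgroup G) (hH : DetectsFixed G H₀ H)
    (hs : ∀ i, Trivial (fixedField ((H i).map act)) ∨
      (GenusZero (fixedField ((H i).map act)) ∧ SplitPencil (fixedField ((H i).map act)))) :
    Trivial (fixedField (H₀.map act)) := by
  refine group_rel act hact H₀ H hH fun i => ?_
  rcases hs i with h | ⟨hg, h⟩
  · exact h
  obtain ⟨hfd, -⟩ := fixed_finite act hact (H i)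
  have htr : Algebra.trdeg ℂ (fixedField ((H i).map act)) = 2 :=
    trdeg_below _ (n := 2) hK
  have hess : Algebra.EssFiniteType ℂ (fixedField ((H i).map act)) :=
    Pool.Agent.TH466.QG.ess_below (k := ℂ) (F := fixedField ((H i).map act)) (K := K)
  have hcz : CharZero (fixedField ((H i).map act)) :=
    charZero_of_injective_algebraMap (algebraMap ℂ (fixedField ((H i).map act))).injective
  exact split_rat htr (split_of htr (fun x ξ η a b h1 h2 => deg_bound htr hg h1 h2) h)

end Pool.Agent.Results.MP_7ebcb6_ag.SplitJacobianPencils
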